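import Pool.Agent.helper1.FI4.SpecHT

set_option autoImplicit false

namespace Pool.Agent.FI4

open Pool.Agent.helper58.DC Pool.Agent.DI Pool.Agent.GR Pool.Agent.OB Pool.Agent.DR Pool.Agent.FI Pool.Agent.FI3

theorem UNV_card {G : Type} [Group G] {C T : Subgroup G} (h : C ≤ T) :
    Nat.card C * C.relIndex T = Nat.card T := by
  have h1 := Subgroup.relIndex_mul_relIndex ⊥ C T bot_le h
  rwa [Subgroup.relIndex_bot_left, Subgroup.relIndex_bot_left] at h1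

/-- values of linear characters of an abelian `p`-group are congruent to `1` -/
theorem UNV_lv {G : Type} [Group G] [Finite G] {p : ℕ} {M : Ideal (integralClosure ℤ ℂ)} (hS : Setup p M)
    {D : Subgroup G} (hD : IsPGroup p D) (hcom : ∀ c ∈ D, ∀ d ∈ D, c * d = d * c) (l : D →* ℂˣ) (u : D) :
    InM M (lv l u - 1) := by
  let _ : CommGroup D := { (inferInstance : Group D) with
    mul_comm := fun a b => Subtype.ext (hcom a.1 a.2 b.1 b.2) }
  exact lv_modM hS hD l u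

theorem UNV_sum {G : Type} [Group G] [Finite G] (T : Subgroup G) (f F : G → ℂ) (a : ℂ)
    (h : ∀ t ∈ T, f t = a * (F t + 1)) :
    ∑ᶠ t ∈ (T : Set G), f t = a * (∑ᶠ t ∈ (T : Set G), F t + Nat.card T) := by
  classical
  have hT : (T : Set G).Finite := Set.toFinite _
  rw [finsum_mem_eq_finite_toFinset_sum _ hT, finsum_mem_eq_finite_toFinset_sum _ hT]
  have h1 : ∑ t ∈ hT.toFinset, f t = ∑ t ∈ hT.toFinset, a * (F t + 1) :=
    Finset.sum_congr rfl fun t ht => h t (hT.mem_toFinset.1 ht)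
  have h2 : (hT.toFinset.card : ℂ) = Nat.card T := by
    rw [← Set.ncard_eq_toFinset_card (T : Set G) hT]
    rfl
  rw [h1, ← Finset.mul_sum, Finset.sum_add_distrib, Finset.sum_const, nsmul_eq_mul, mul_one, h2]

theorem UNV (hQHG : QHG_stmt) (hQH0 : QH0_stmt) (hQCG : QCG_stmt) (hQAV : QAV_stmt) (hBET : BET_stmt) (hCCI : CCI_stmt) : UNV_stmt := by
  classical
  intro p M hS G _ _ D x θ χ hR
  obtain ⟨⟨w, hw, hwr, hwM⟩, ⟨n, k, hn, hnk, hpk⟩, hgood⟩ := hQCG p M hS G D x θ χ hR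
  refine ⟨w, hw, hwr, fun K hK j hj hinv hcong ψ hψ u hu => ?_⟩
  have hDC : D ≤ cz D := le_cz_of_com hR.com
  have hpD : IsPGroup p D := hR.dfa.pgrp
  have hg : u * w ∈ cz D := (cz D).mul_mem (hDC hu) hw
  have h0 := hQH0 G D K (u * w) (hK hg) j hj.sup ψ hψ.1
  obtain ⟨hCF, hint, h1⟩ := hQHG p M hS G D K hpD hR.com hK θ hR.th (u * w) hg j hj.sup hj.int hinv hcong
  refine ⟨?_, fun hzero => ?_⟩
  · rw [← h0]
    exact ((hCCI G K ψ hψ.1).2.2 p M hS _ hCF.1).1 hint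
  rw [← h0] at hzero
  have h2 := SBIb hS hψ.2 hCF hint
  have h3 := h2.add hS h1
  rw [sub_add_sub_cancel] at h3
  have h3' := hzero.sub hS h3
  rw [sub_sub_cancel] at h3'
  -- the linear character of `D`
  have hCcomm : ∀ s ∈ D, ∀ h ∈ cz D, h * s = s * h := by
    intro s hs h hh
    have hh' : h ∈ Subgroup.centralizer (D : Set G) := hh
    rw [Subgroup.mem_centralizer_iff] at hh'
    exact (hh' s hs).symm
  obtain ⟨l, hl⟩ := QCC hDC hCcomm hR.th
  obtain ⟨T, hT⟩ : ∃ T : Subgroup G, T = TT M D θ ⊓ K := ⟨_, rfl⟩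
  have hCT : cz D ≤ T := by
    rw [hT]
    exact le_inf cz_le_TT hK
  have hTn : ∀ t ∈ T, t ∈ nz D := by
    intro t ht
    rw [hT] at ht
    exact ht.1.1
  have hmem : ∀ t ∈ T, t * u * t⁻¹ ∈ D := fun t ht => (Subgroup.mem_normalizer_iff.1 (hTn t ht) u).1 hu
  obtain ⟨F, hF⟩ : ∃ F : G → ℂ, ∀ t, F t = if h : t * u * t⁻¹ ∈ D then lv l ⟨t * u * t⁻¹, h⟩ - 1 else 0 :=
    ⟨fun t => if h : t * u * t⁻¹ ∈ D then lv l ⟨t * u * t⁻¹, h⟩ - 1 else 0, fun _ => rfl⟩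
  have hF1 : ∀ t ∈ T, InM M (F t) := by
    intro t ht
    rw [hF, dif_pos (hmem t ht)]
    exact UNV_lv hS hpD hR.com l _
  have hF2 : ∀ t ∈ T, ∀ c ∈ cz D, F (t * c) = F t := by
    intro t ht c hc
    have e : t * c * u * (t * c)⁻¹ = t * u * t⁻¹ := by
      have e1 : c * u = u * c := hCcomm u hu c hc
      rw [mul_assoc t c u, e1]
      group
    rw [hF, hF]
    simp only [e]
  have h4 := (hQAV p M hS G (cz D) T hCT F hF2).2.1 hF1
  -- the values of `θ`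
  have hθ : θ ∈ Bl M (cz D) θ := ⟨hR.th, SB.refl _ _⟩
  have hθw : ∀ t ∈ T, θ (t * w * t⁻¹) = θ w := by
    intro t ht
    have ht1 : t ∈ TT M D θ := by
      rw [hT] at ht
      exact ht.1
    have ht2 : t⁻¹ ∈ TT M D θ := (TT M D θ).inv_mem ht1
    have h5 : cjF t⁻¹ θ ∈ Bl M (cz D) θ := by
      refine ⟨?_, ht2.2⟩
      have h6 := IrrOn_funMap hR.th t⁻¹
      have h7 : cj t⁻¹ (cz D) = cz D := by
        rw [← cj_cz, cj_nz.2 ht2.1]
      rw [h7] at h6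
      exact h6
    have h8 := hgood.reg _ h5 θ hθ w hw hwr
    rw [cjF_apply, inv_inv] at h8
    exact h8
  have hval : ∀ t ∈ T, θ (t * (u * w) * t⁻¹) / θ 1 = θ w / θ 1 * (F t + 1) := by
    intro t ht
    have e1 : t * (u * w) * t⁻¹ = (⟨t * u * t⁻¹, hmem t ht⟩ : D).1 * (t * w * t⁻¹) := by
      change t * (u * w) * t⁻¹ = t * u * t⁻¹ * (t * w * t⁻¹)
      group
    rw [e1, hl ⟨t * u * t⁻¹, hmem t ht⟩, hθw t ht, hF, dif_pos (hmem t ht)]
    ring
  rw [← hT, UNV_sum T _ F _ hval] at h3'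
  -- the constants
  have hθ1 : θ 1 ≠ 0 := IrrOn_ne hR.th
  have hn0 : (n : ℂ) ≠ 0 := by
    rw [← hn]
    exact hθ1
  have hDc : (Nat.card D : ℂ) ≠ 0 := Nat.cast_ne_zero.2 Nat.card_pos.ne'
  have hCc : (Nat.card (cz D) : ℂ) ≠ 0 := Nat.cast_ne_zero.2 Nat.card_pos.ne'
  have hcT := UNV_card hCT
  obtain ⟨r, hr⟩ : ∃ r, r = (cz D).relIndex T := ⟨_, rfl⟩
  rw [← hr] at hcT
  have hrp : ¬ p ∣ r := by
    intro h
    refine hBET p M hS G D x θ χ hR ?_
    rw [hr] at h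
    refine h.trans ?_
    have h4 := Subgroup.relIndex_mul_relIndex (cz D) T (TT M D θ) hCT (by rw [hT]; exact inf_le_left)
    exact Dvd.intro _ h4
  have hnk' : (n : ℂ) * Nat.card D * k = Nat.card (cz D) := by exact_mod_cast hnk
  have hcT' : (Nat.card T : ℂ) = Nat.card (cz D) * r := by exact_mod_cast hcT.symm
  obtain ⟨sm, hsm⟩ : ∃ s, s = ∑ᶠ t ∈ (T : Set G), F t := ⟨_, rfl⟩
  rw [← hsm] at h3' h4
  have hθi : IntAt M (θ w) := IntAt.of_isIntegral hS (IrrOn_int hR.th w)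
  have h5 : InM M (sm / Nat.card (cz D) * ((k : ℂ) * θ w)) :=
    InM.mul_right hS h4 ((IntAt.natCast hS k).mul hS hθi)
  have h6 : θ w / θ 1 * (sm + Nat.card T) / Nat.card D =
      sm / Nat.card (cz D) * ((k : ℂ) * θ w) + ((r * k : ℕ) : ℂ) * θ w := by
    rw [hn, hcT', ← hnk']
    have hk0 : (k : ℂ) ≠ 0 := by
      intro h
      rw [h, mul_zero] at hnk'
      exact hCc hnk'.symm
    push_cast
    field_simp
  rw [h6] at h3'
  have h7 := h3'.sub hS h5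
  rw [add_sub_cancel_left] at h7
  rcases InM.or hS (IntAt.natCast hS (r * k)) hθi h7 with h8 | h8
  · rw [InM.natCast hS] at h8
    rcases (Nat.Prime.dvd_mul hS.pr).1 h8 with h9 | h9
    · exact hrp h9
    · exact hpk h9
  · exact hwM h8

end Pool.Agent.FI4
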