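import Pool.Agent.helper95.FI4.SpecB

set_option autoImplicit false

namespace Pool.Agent.FI4

open Pool.Agent.helper58.DC Pool.Agent.DI Pool.Agent.GR Pool.Agent.OB Pool.Agent.DR Pool.Agent.FI Pool.Agent.FI3

theorem IR4_rat {d : ℂ} {N : ℕ} {a : ℤ} (hN : N ≠ 0) (h : (N : ℂ) * d = a) (hi : IsIntegral ℤ d) :
    ∃ f : ℤ, d = f := by
  have hN' : (N : ℂ) ≠ 0 := Nat.cast_ne_zero.2 hN
  have h1 : d = (((a : ℚ) / (N : ℚ) : ℚ) : ℂ) := by
    push_cast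
    rw [eq_div_iff hN', mul_comm]
    exact h
  rw [h1] at hi ⊢
  have hint2 : IsIntegral ℤ ((a : ℚ) / (N : ℚ)) := by
    have h2 : IsIntegral ℤ (algebraMap ℚ ℂ ((a : ℚ) / (N : ℚ))) := hi
    exact (isIntegral_algebraMap_iff (algebraMap ℚ ℂ).injective).1 h2
  obtain ⟨f, hf⟩ := IsIntegrallyClosed.isIntegral_iff.1 hint2
  refine ⟨f, ?_⟩
  rw [← hf]
  simp

/-- the conjugates of `dd` are equal -/
theorem IR4_eq (hDF : DF4_stmt) (hGPW : GPW_stmt) {p : ℕ} {M : Ideal (integralClosure ℤ ℂ)} (hS : Setup p M)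
    {G : Type} [Group G] [Finite G] {D : Subgroup G} {θ : G → ℂ} {m : ℕ} (hm : Gm p (Nat.card G) m)
    {u : G} (hu : PEl p u) (hG : Good p M D (Cz (⊤ : Subgroup G) u) θ) {ψ : G → ℂ}
    (hψ : ψ ∈ IrrOn (⊤ : Subgroup G)) (hr : PR m ψ) {s : ℕ} (hs : ¬ p ∣ s) :
    dd M (Cz (⊤ : Subgroup G) u) θ ψ (u ^ s) = dd M (Cz (⊤ : Subgroup G) u) θ ψ u := by
  have hne : (Bl M (Cz (⊤ : Subgroup G) u) θ).Nonempty := by
    apply Set.nonempty_of_ncard_ne_zero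
    rw [hG.card]
    exact Nat.card_pos.ne'
  obtain ⟨η, hη⟩ := hne
  have hc : ∀ v ∈ Cz (⊤ : Subgroup G) u, v * u = u * v := by
    intro v hv
    exact (Subgroup.mem_centralizer_iff.1 hv.2 u (Set.mem_singleton u)).symm
  have hmem : ∀ t : ℕ, u ^ t ∈ Cz (⊤ : Subgroup G) u := by
    intro t
    refine Subgroup.mem_inf.2 ⟨Subgroup.mem_top _, ?_⟩
    rw [Subgroup.mem_centralizer_iff]
    intro h hh
    rw [Set.mem_singleton_iff.1 hh]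
    exact (Commute.refl u).pow_right t
  have hcen : ∀ t : ℕ, Cen (Cz (⊤ : Subgroup G) u) (u ^ t) := by
    intro t l hl
    exact (show Commute l u from hc l hl).pow_right t
  have h1 := hDF p M hS G D _ θ hG (u ^ s) (hmem s) (hcen s) ψ hψ η hη
  have h2 := hDF p M hS G D _ θ hG u (by simpa using hmem 1) (by simpa using hcen 1) ψ hψ η hη
  have h3 : ∑ᶠ v ∈ {v : G | v ∈ Cz (⊤ : Subgroup G) u ∧ PReg p v}, ψ (u ^ s * v) * η v⁻¹ =
      ∑ᶠ v ∈ {v : G | v ∈ Cz (⊤ : Subgroup G) u ∧ PReg p v}, ψ (u * v) * η v⁻¹ := by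
    refine finsum_mem_congr rfl fun v hv => ?_
    rw [hGPW p hS.pr G m hm ψ hr u v (hc v hv.1).symm hu hv.2 s hs]
  rw [h3, ← h2] at h1
  have hK : (Nat.card (Cz (⊤ : Subgroup G) u) : ℂ) ≠ 0 := Nat.cast_ne_zero.2 Nat.card_pos.ne'
  exact mul_left_cancel₀ hK h1

theorem IR4 (hDF : DF4_stmt) (hGPW : GPW_stmt) (hDPX : DPX_stmt) (hLRU : LRU_stmt) (hQDI : QDI_stmt) : IR4_stmt := by
  classical
  intro p M hS G _ _ D θ m hm u hu hG ψ hψ hr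
  have hp : p.Prime := hS.pr
  obtain ⟨k, hk⟩ := id hu
  obtain ⟨d, hd⟩ : ∃ d, d = dd M (Cz (⊤ : Subgroup G) u) θ ψ u := ⟨_, rfl⟩
  rw [← hd]
  have hn : 0 < p ^ (k + 1) := pow_pos hp.pos _
  have hun : u ^ p ^ (k + 1) = 1 := by
    rw [pow_succ, pow_mul, hk, one_pow]
  obtain ⟨ζ, hζ⟩ : ∃ ζ : ℂ, IsPrimitiveRoot ζ (p ^ (k + 1)) := ⟨_, Complex.isPrimitiveRoot_exp _ hn.ne'⟩
  obtain ⟨P, hP⟩ := hDPX G M ⊤ θ ψ hψ u (Subgroup.mem_top u) (p ^ (k + 1)) hn hun ζ hζ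
  have h1 : ∀ s : ℕ, ¬ p ∣ s → d = Polynomial.aeval (ζ ^ s) P := by
    intro s hs
    have h2 := hP s (Nat.Coprime.pow_right _ ((Nat.Prime.coprime_iff_not_dvd hp).2 hs).symm)
    rw [Cz_pow hp hu hs, IR4_eq hDF hGPW hS hm hu hG hψ hr hs, ← hd] at h2
    exact h2
  have h3 : ∀ j : ℕ, ∃ a : ℤ, ∑ s ∈ (Finset.range (p ^ (k + 1))).filter (fun s => ¬ p ∣ s), (ζ ^ j) ^ s = (a : ℂ) := by
    intro j
    refine hLRU p (k + 1) (ζ ^ j) hp ?_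
    rw [← pow_mul, mul_comm, pow_mul, hζ.pow_eq_one, one_pow]
  choose a ha using h3
  obtain ⟨U, hU⟩ : ∃ U, U = (Finset.range (p ^ (k + 1))).filter (fun s => ¬ p ∣ s) := ⟨_, rfl⟩
  rw [← hU] at ha
  have hU1 : U.card ≠ 0 := by
    have h4 : 1 ∈ U := by
      rw [hU, Finset.mem_filter, Finset.mem_range]
      exact ⟨Nat.one_lt_pow (Nat.succ_ne_zero k) hp.one_lt, hp.one_lt.ne' ∘ Nat.dvd_one.1⟩
    exact Finset.card_ne_zero_of_mem h4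
  have h5 : (U.card : ℂ) * d = ((∑ j ∈ Finset.range (P.natDegree + 1), P.coeff j * a j : ℤ) : ℂ) := by
    have h6 : (U.card : ℂ) * d = ∑ s ∈ U, Polynomial.aeval (ζ ^ s) P := by
      rw [← nsmul_eq_mul, ← Finset.sum_const]
      refine Finset.sum_congr rfl fun s hs => h1 s ?_
      rw [hU, Finset.mem_filter] at hs
      exact hs.2
    rw [h6]
    simp only [Polynomial.aeval_eq_sum_range]
    rw [Finset.sum_comm]
    push_cast
    refine Finset.sum_congr rfl fun j _ => ?_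
    rw [← ha j, Finset.mul_sum]
    refine Finset.sum_congr rfl fun s _ => ?_
    rw [← pow_mul, ← pow_mul, mul_comm s j, zsmul_eq_mul]
  refine IR4_rat hU1 h5 ?_
  rw [hd]
  exact hQDI G M ⊤ θ u (Subgroup.mem_top u) ψ hψ

end Pool.Agent.FI4
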