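import Pool.Agent.helper59.FI4.SpecI

set_option autoImplicit false

namespace Pool.Agent.FI4I

open Pool.Agent.helper58.DC Pool.Agent.DI Pool.Agent.GR Pool.Agent.OB Pool.Agent.DR Pool.Agent.FI Pool.Agent.FI3 Pool.Agent.FI4

theorem LOC_ex (hBKV : BKV_stmt) (hEXB : EXB_stmt) (p : ℕ) (M : Ideal (integralClosure ℤ ℂ)) (hS : Setup p M)
    (G : Type) [Group G] [Finite G] (D : Subgroup G) (x : G) (θ χ : G → ℂ) (hR : Rt p M D x θ χ)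
    (Q N : Subgroup G) (hM : Mid p Q N) (g : G) (hg : Q ≤ cjS g D) :
    ∀ ζ ∈ Blk M χ (N ⊓ nz (cjS g D)), ∃ φ ∈ IrrOn N, SB M N ζ φ := by
  intro ζ hζ
  obtain ⟨h1, h2, -, h4⟩ := hBKV p M hS G D x θ χ hR Q N hM g hg
  obtain ⟨θ₁, hθ₁, -, h5⟩ := h4 ζ hζ.1
  have h6 : IsPGroup p (cjS g D) := hR.dfa.pgrp.map _
  have h7 : N ⊓ cz (cjS g D) = cz (cjS g D) := inf_eq_right.2 h2
  rw [← h7] at hθ₁
  obtain ⟨ψ, hψ, h8⟩ := hEXB p M hS G N (cjS g D) h6 h1 θ₁ hθ₁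
  exact ⟨ψ, hψ, h5.symm.trans h8⟩

theorem LOC (hLBC : LBC_stmt) (hLBS : LBS_stmt) (hBKV : BKV_stmt) (hEXB : EXB_stmt) : LOC_stmt := by
  classical
  intro p M hS G _ _ D x θ χ hR Q N hM hRed
  have hF : (Blk M χ N).Finite := (IrrOn_fin N).subset fun φ h => h.1
  have hT : {g : G | Q ≤ cjS g D}.Finite := Set.toFinite _
  have hN : ∀ ζ ∈ Blk M χ N, ∃ φ ∈ IrrOn N, SB M N ζ φ := fun ζ h => ⟨ζ, h.1, SB.refl _ _⟩
  have h1 := hLBS p M hS G χ N N le_rfl hN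
  have h2 : ∀ g ∈ {g : G | Q ≤ cjS g D},
      ∑ᶠ φ ∈ Blk M χ N, LB p M N φ (N ⊓ nz (cjS g D)) / ((Bl M N φ).ncard : ℂ) =
        LL p M χ (N ⊓ nz (cjS g D)) := fun g hg =>
    hLBS p M hS G χ N (N ⊓ nz (cjS g D)) inf_le_left
      (LOC_ex hBKV hEXB p M hS G D x θ χ hR Q N hM g hg)
  have h3 := fun φ hφ => hLBC p M hS G D x θ χ hR Q N hM hRed φ hφ
  rw [← h1, finsum_mem_eq_finite_toFinset_sum _ hF, finsum_mem_eq_finite_toFinset_sum _ hT, Finset.mul_sum,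
    Finset.mul_sum]
  have h4 : ∀ g ∈ hT.toFinset, (Nat.card (N ⊓ nz (cjS g D) : Subgroup G) : ℂ) * LL p M χ (N ⊓ nz (cjS g D)) =
      ∑ φ ∈ hF.toFinset, (Nat.card (N ⊓ nz (cjS g D) : Subgroup G) : ℂ) *
        (LB p M N φ (N ⊓ nz (cjS g D)) / ((Bl M N φ).ncard : ℂ)) := by
    intro g hg
    rw [← h2 g (hT.mem_toFinset.1 hg), finsum_mem_eq_finite_toFinset_sum _ hF, Finset.mul_sum]
  rw [Finset.sum_congr rfl h4, Finset.sum_comm]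
  refine Finset.sum_congr rfl fun φ hφ => ?_
  have h5 := h3 φ (hF.mem_toFinset.1 hφ)
  rw [finsum_mem_eq_finite_toFinset_sum _ hT] at h5
  have h6 : (Nat.card (nz D) : ℂ) * ((Nat.card N : ℂ) * (LB p M N φ N / ((Bl M N φ).ncard : ℂ))) =
      (Nat.card (nz D) : ℂ) * ((Nat.card N : ℂ) * LB p M N φ N) / ((Bl M N φ).ncard : ℂ) := by
    ring
  rw [h6, h5, Finset.sum_div]
  exact Finset.sum_congr rfl fun g _ => by ring

end Pool.Agent.FI4I
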