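import Pool.Agent.helper12.FI4.SpecX

set_option autoImplicit false

namespace Pool.Agent.FI4

open Pool.Agent.helper58.DC Pool.Agent.DI Pool.Agent.GR Pool.Agent.OB Pool.Agent.DR Pool.Agent.FI Pool.Agent.FI3

theorem X6_cj_inf {H : Type} [Group H] (g : H) (C K : Subgroup H) (hC : cj g C = C) (hK : K.Normal) :
    cj g (C ⊓ K) = C ⊓ K := by
  ext y
  rw [mem_cj, Subgroup.mem_inf, Subgroup.mem_inf, ← mem_cj, hC]
  refine and_congr_right fun _ => ?_
  constructor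
  · intro h
    have h1 := hK.conj_mem _ h g
    have h2 : g * (g⁻¹ * y * g) * g⁻¹ = y := by group
    rwa [h2] at h1
  · intro h
    have h1 := hK.conj_mem _ h g⁻¹
    rwa [inv_inv] at h1

theorem X6_nz_conj {H : Type} [Group H] {D : Subgroup H} {g x : H} (hg : g ∈ nz D) (h : g * x * g⁻¹ ∈ cz D) :
    x ∈ cz D := by
  have h1 := cz_conj ((nz D).inv_mem hg) h
  have h2 : g⁻¹ * (g * x * g⁻¹) * g⁻¹⁻¹ = x := by group
  rwa [h2] at h1

/-- the element `e` of the proof -/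
structure X6P {G E A : Type} [Group G] [Group E] [Group A] (X : Extension G E A) (M : Ideal (integralClosure ℤ ℂ))
    (D : Subgroup G) (θ : G → ℂ) (n : G) (t c : E) : Prop where
  cm : c ∈ cz (D.map X.inc)
  nm : X.inc n * c⁻¹ * t * (X.inc n)⁻¹ ∈ nz (D.map X.inc)
  sb : SB M (cz D) (funMap (X.act (X.inc n * c⁻¹ * t * (X.inc n)⁻¹)) θ) θ

theorem X6_el (hX1 : X1_stmt) (hX3 : X3_stmt) (hX4 : X4_stmt) (hUNI : UNI_stmt) (hB0 : B0_stmt) (hB10 : B10_stmt)
    (p : ℕ) (M : Ideal (integralClosure ℤ ℂ)) (hS : Setup p M) (G E A : Type) [Group G] [Group E] [Group A]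
    [Finite G] [Finite E] (X : Extension G E A) (hA : IsCyclic A) (D : Subgroup G) (x : G) (θ χ : G → ℂ)
    (hR : Rt p M D x θ χ) (hst : Stable X M χ) (b : E → ℂ) (hb : b ∈ Irr E)
    (hcov : Cov M X.inc.range (omega (ext0 X.inc χ)) b) (η : E → ℂ) (hη : η ∈ IrrOn (cz (D.map X.inc)))
    (hind : Induces M η b) :
    ∃ n : G, X.inc n ∈ nz (D.map X.inc) ∧ ∀ t ∈ TT M (D.map X.inc) η, ∃ c : E, X6P X M D θ n t c := by
  have hcyc : CycQ X.inc.range := hB0.2.2.2 G E A X hA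
  have hKn : X.inc.range.Normal := hcyc.1
  obtain ⟨η₀, hη₀, hov⟩ := (hB10 E X.inc.range (cz (D.map X.inc)) hcyc).1 η hη
  obtain ⟨θ₀, hθ₀, hθη, hθi⟩ := hX4 p M hS G E A X χ hR.chi hst D hR.dfa.pgrp b hb hcov η hη hind η₀ hη₀ hov
  obtain ⟨x1, -, x3, x4, x5, -⟩ := hX1 G E A X M
  have hczb : cz (⊥ : Subgroup G) = ⊤ := by
    rw [eq_top_iff]
    intro g _
    rw [Subgroup.mem_centralizer_iff]
    intro h hh
    rw [SetLike.mem_coe, Subgroup.mem_bot] at hh
    rw [hh, one_mul, mul_one]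
  obtain ⟨n, -, hn, hsb⟩ := hUNI p M hS G D x θ χ hR ⊥ bot_le χ (by rw [hczb]; exact IrrOn_top.2 hR.chi)
    (by rw [hczb]; exact (SB_top_iff hS).2 hR.ind) θ₀ hθ₀ (by rw [hczb]; exact (SB_top_iff hS).2 hθi)
  have hact : X.act (X.inc n) = MulAut.conj n := by
    apply MulEquiv.ext
    intro g
    apply X.inc_injective
    rw [X.act_spec, MulAut.conj_apply, map_mul, map_mul, map_inv]
  have hin : X.inc n ∈ nz (D.map X.inc) := by
    have h1 : X.inc n ∈ (nz D).map X.inc := Subgroup.mem_map_of_mem _ hn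
    rw [← (x3 D).2] at h1
    exact h1.1
  refine ⟨n, hin, fun t ht => ?_⟩
  have htn : t ∈ nz (D.map X.inc) := ht.1
  have hcjC : ∀ g ∈ nz (D.map X.inc), cj g (cz (D.map X.inc)) = cz (D.map X.inc) := by
    intro g hg
    rw [← cj_cz, cj_nz.2 hg]
  have hcjI : ∀ g ∈ nz (D.map X.inc), cj g (cz (D.map X.inc) ⊓ X.inc.range) = cz (D.map X.inc) ⊓ X.inc.range :=
    fun g hg => X6_cj_inf g _ _ (hcjC g hg) hKn
  obtain ⟨c, hc, hcs⟩ := (hX3 p M hS E X.inc.range (cz (D.map X.inc)) hKn η hη η₀ hη₀ hov).2 t (hcjC t htn) ht.2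
  have hcn : c ∈ nz (D.map X.inc) := cz_le_nz _ hc
  have hen : X.inc n * c⁻¹ * t * (X.inc n)⁻¹ ∈ nz (D.map X.inc) :=
    (nz _).mul_mem ((nz _).mul_mem ((nz _).mul_mem hin ((nz _).inv_mem hcn)) htn) ((nz _).inv_mem hin)
  refine ⟨c, hc, hen, ?_⟩
  -- the relations on `E`
  have hA1 : SB M (cz (D.map X.inc) ⊓ X.inc.range) (funMap (MulAut.conj (X.inc n)) η₀) (ext0 X.inc θ) := by
    have h1 := (x1 (cz D) _ _).1 hsb
    rw [← (x3 D).1] at h1
    rw [hθη, x5, hact]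
    exact h1
  have hconj : ∀ g ∈ nz (D.map X.inc), ∀ f f' : E → ℂ, SB M (cz (D.map X.inc) ⊓ X.inc.range) f f' →
      SB M (cz (D.map X.inc) ⊓ X.inc.range) (funMap (MulAut.conj g) f) (funMap (MulAut.conj g) f') := by
    intro g hg f f' hf
    have h1 := SB_conj hf g
    rwa [hcjI g hg] at h1
  have h2 := (hconj _ hen _ _ hA1).symm
  have e1 : funMap (MulAut.conj (X.inc n * c⁻¹ * t * (X.inc n)⁻¹)) (funMap (MulAut.conj (X.inc n)) η₀) =
      funMap (MulAut.conj (X.inc n * c⁻¹)) (funMap (MulAut.conj t) η₀) := by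
    rw [← funMap_mul, ← funMap_mul]
    congr 2
    group
  rw [e1] at h2
  have h3 := hconj (X.inc n * c⁻¹) ((nz _).mul_mem hin ((nz _).inv_mem hcn)) _ _ hcs
  have e2 : funMap (MulAut.conj (X.inc n * c⁻¹)) (funMap (MulAut.conj c) η₀) = funMap (MulAut.conj (X.inc n)) η₀ := by
    rw [← funMap_mul]
    congr 2
    group
  rw [e2] at h3
  have h4 := (h2.trans h3).trans hA1
  rw [x5, (x3 D).1] at h4
  exact (x1 (cz D) _ _).2 h4

theorem X6_act {G E A : Type} [Group G] [Group E] [Group A] (X : Extension G E A) {D : Subgroup G} {e e' : E}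
    (h : ∀ d : D, X.act e d = X.act e' d) : e⁻¹ * e' ∈ cz (D.map X.inc) := by
  rw [Subgroup.mem_centralizer_iff]
  rintro _ ⟨d, hd, rfl⟩
  have h1 := congrArg X.inc (h ⟨d, hd⟩)
  rw [X.act_spec, X.act_spec] at h1
  change e * X.inc d * e⁻¹ = e' * X.inc d * e'⁻¹ at h1
  calc X.inc d * (e⁻¹ * e') = e⁻¹ * (e * X.inc d * e⁻¹) * e' := by group
    _ = e⁻¹ * (e' * X.inc d * e'⁻¹) * e' := by rw [h1]
    _ = e⁻¹ * e' * X.inc d := by group

theorem X6 (hX1 : X1_stmt) (hX3 : X3_stmt) (hX4 : X4_stmt) (hUNI : UNI_stmt) (hB0 : B0_stmt) (hB10 : B10_stmt) : X6_stmt := by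
  classical
  intro p M hS G E A _ _ _ _ _ X hA D x θ χ hR hst b hb hcov η hη hind
  obtain ⟨n, hin, hel⟩ := X6_el hX1 hX3 hX4 hUNI hB0 hB10 p M hS G E A X hA D x θ χ hR hst b hb hcov η hη hind
  obtain ⟨-, -, -, x4, -, -⟩ := hX1 G E A X M
  choose! c hc using hel
  obtain ⟨w, hw⟩ : ∃ w : E → E, ∀ t, w t = X.inc n * (c t)⁻¹ * t * (X.inc n)⁻¹ := ⟨_, fun _ => rfl⟩
  obtain ⟨f, hf⟩ : ∃ f : E → D → G, ∀ t d, f t d = X.act (w t) d := ⟨_, fun _ _ => rfl⟩
  have hfa : ∀ t ∈ TT M (D.map X.inc) η, f t ∈ Pool.Agent.FIW.autos X M D θ ⊤ := by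
    intro t ht
    have h1 := hc t ht
    refine ⟨w t, Subgroup.mem_top _, hf t, fun d => ?_, ?_⟩
    · rw [hf, hw]
      exact (x4 _ D).1 h1.nm d d.2
    · rw [hw]
      exact (Tr_SB M _ _ _).2 h1.sb
  have hkey : ∀ t ∈ TT M (D.map X.inc) η, ∀ t' ∈ TT M (D.map X.inc) η, f t = f t' →
      t⁻¹ * t' ∈ cz (D.map X.inc) := by
    intro t ht t' ht' hff
    have h1 : ∀ d : D, X.act (w t) d = X.act (w t') d := by
      intro d
      rw [← hf, ← hf, hff]
    have h2 := X6_act X h1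
    rw [hw, hw] at h2
    have e1 : (X.inc n * (c t)⁻¹ * t * (X.inc n)⁻¹)⁻¹ * (X.inc n * (c t')⁻¹ * t' * (X.inc n)⁻¹) =
        X.inc n * (t⁻¹ * (c t * (c t')⁻¹) * t * (t⁻¹ * t')) * (X.inc n)⁻¹ := by group
    rw [e1] at h2
    have h3 := X6_nz_conj hin h2
    have h4 : t⁻¹ * (c t * (c t')⁻¹) * t ∈ cz (D.map X.inc) := by
      have h5 := cz_conj ((nz _).inv_mem ht.1) ((cz _).mul_mem (hc t ht).cm ((cz _).inv_mem (hc t' ht').cm))
      rwa [inv_inv] at h5
    exact (Subgroup.mul_mem_cancel_left _ h4).1 h3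
  constructor
  · have h1 : iI M (D.map X.inc) η =
        Nat.card (TT M (D.map X.inc) η ⧸ (cz (D.map X.inc)).subgroupOf (TT M (D.map X.inc) η)) := rfl
    rw [h1]
    have hfin : Finite (Pool.Agent.FIW.autos X M D θ ⊤) := inferInstance
    have h2 : (Pool.Agent.FIW.autos X M D θ ⊤).ncard = Nat.card (Pool.Agent.FIW.autos X M D θ ⊤) := rfl
    rw [h2]
    refine Nat.card_le_card_of_injective
      (fun q => (⟨f (q.out : E), hfa _ q.out.2⟩ : Pool.Agent.FIW.autos X M D θ ⊤)) ?_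
    intro q q' hqq
    have h3 : f (q.out : E) = f (q'.out : E) := congrArg Subtype.val hqq
    have h4 := hkey _ q.out.2 _ q'.out.2 h3
    rw [← Quotient.out_eq' q, ← Quotient.out_eq' q']
    refine QuotientGroup.eq.2 ?_
    exact h4
  · refine Set.ncard_le_ncard_of_injOn (fun u : D => (X.inc n)⁻¹ * X.inc u * X.inc n) ?_ ?_ (Set.toFinite _)
    · intro u hu
      obtain ⟨v, hv⟩ : ∃ v, v = (X.inc n)⁻¹ * X.inc (u : G) * X.inc n := ⟨_, rfl⟩
      have hvD : v ∈ D.map X.inc := by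
        have h1 := (Subgroup.mem_normalizer_iff.1 ((nz _).inv_mem hin) (X.inc (u : G))).1
          (Subgroup.mem_map_of_mem _ u.2)
        rw [inv_inv] at h1
        rw [hv]
        exact h1
      change (X.inc n)⁻¹ * X.inc (u : G) * X.inc n ∈ RG M (D.map X.inc) η
      rw [← hv]
      refine ⟨hvD, fun t ht htv => ?_⟩
      have h2 := hc t ht
      have h3 : f t u = u := by
        apply X.inc_injective
        rw [hf, X.act_spec, hw]
        have h4 : v * c t = c t * v := (Subgroup.mem_centralizer_iff.1 h2.cm) v hvD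
        calc X.inc n * (c t)⁻¹ * t * (X.inc n)⁻¹ * X.inc (u : G) * (X.inc n * (c t)⁻¹ * t * (X.inc n)⁻¹)⁻¹ =
            X.inc n * (c t)⁻¹ * (t * ((X.inc n)⁻¹ * X.inc (u : G) * X.inc n)) * t⁻¹ * c t * (X.inc n)⁻¹ := by group
          _ = X.inc n * (c t)⁻¹ * (v * t) * t⁻¹ * c t * (X.inc n)⁻¹ := by rw [← hv, htv]
          _ = X.inc n * (c t)⁻¹ * (v * c t) * (X.inc n)⁻¹ := by group
          _ = X.inc n * (c t)⁻¹ * (c t * v) * (X.inc n)⁻¹ := by rw [h4]
          _ = X.inc n * v * (X.inc n)⁻¹ := by group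
          _ = X.inc (u : G) := by
            rw [hv]
            group
      have h5 := hu (f t) (hfa t ht) h3
      have h6 : ∀ d : D, X.act (1 : E) d = X.act (w t) d := by
        intro d
        rw [← hf, h5 d, map_one]
        rfl
      have h7 := X6_act X h6
      rw [inv_one, one_mul, hw] at h7
      have e1 : X.inc n * (c t)⁻¹ * t * (X.inc n)⁻¹ = X.inc n * ((c t)⁻¹ * t) * (X.inc n)⁻¹ := by group
      rw [e1] at h7
      exact (Subgroup.mul_mem_cancel_left _ ((cz _).inv_mem h2.cm)).1 (X6_nz_conj hin h7)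
    · intro u _ u' _ huu
      change (X.inc n)⁻¹ * X.inc (u : G) * X.inc n = (X.inc n)⁻¹ * X.inc (u' : G) * X.inc n at huu
      exact Subtype.ext (X.inc_injective (mul_left_cancel (mul_right_cancel huu)))

end Pool.Agent.FI4
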